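import Pool.Agent.Helper96.SE.Goals

/-! Packet SE-HTE (MP_e44225_nt): heights in an extension. -/

open NumberField Height IsDedekindDomain
open Pool.Agent.Results.MP_e44225_nt.SUnitDisproof

namespace Pool.Agent.Helper49.SE

open Pool.Agent.Helper96.SE (PLI PLF HTE)

universe u

variable {k K : Type u} [Field k] [NumberField k] [Field K] [NumberField K] [Algebra k K]

/-- every place lies above a place -/
theorem exists_above (w : Place K) : ∃ v : Place k, Above v w := by
  rcases w with w | w
  · exact ⟨Sum.inl (w.comap (algebraMap k K)), Or.inl ⟨_, _, rfl, rfl, rfl⟩⟩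
  · refine ⟨Sum.inr (FinitePlace.mk (HeightOneSpectrum.under (𝓞 k) w.maximalIdeal)),
      Or.inr ⟨_, _, rfl, rfl, ?_⟩⟩
    rw [FinitePlace.maximalIdeal_mk]
    exact ⟨rfl⟩

theorem above_unique {v v' : Place k} {w : Place K} (h : Above v w) (h' : Above v' w) :
    v = v' := by
  rcases h with ⟨a, b, rfl, rfl, h⟩ | ⟨a, b, rfl, rfl, h⟩
  · rcases h' with ⟨a', b', rfl, e, h'⟩ | ⟨a', b', rfl, e, h'⟩
    · obtain rfl := Sum.inl_injective e
      rw [← h, ← h']
    · cases e
  · rcases h' with ⟨a', b', rfl, e, h'⟩ | ⟨a', b', rfl, e, h'⟩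
    · cases e
    · obtain rfl := Sum.inr_injective e
      congr 1
      exact finite_below_unique a a' b h h'

theorem exists_fin {L : Type u} [Field L] [NumberField L] {y : L} (hy : y ≠ 0) :
    ∃ S : Finset (Place L), (∀ v : InfinitePlace L, (Sum.inl v : Place L) ∈ S) ∧
      ∀ w : FinitePlace L, (Sum.inr w : Place L) ∉ S → w y = 1 := by
  classical
  have hf := FinitePlace.hasFiniteMulSupport hy
  refine ⟨Finset.univ.disjSum hf.toFinset, fun v => by simp, fun w hw => ?_⟩
  by_contra hne
  apply hw
  rw [Finset.inr_mem_disjSum, Set.Finite.mem_toFinset]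
  exact hne

theorem hte : PLI.{u} → PLF.{u} → HTE.{u} := by
  intro hI hF k K _ _ _ _ _ x
  classical
  by_cases hx : x = 0
  · subst hx
    simp
  have hy : algebraMap k K x ≠ 0 := by
    rw [Ne, map_eq_zero_iff _ (algebraMap k K).injective]
    exact hx
  obtain ⟨s, hs1, hs2⟩ := exists_fin hy
  obtain ⟨t0, ht1, ht2⟩ := exists_fin hx
  choose π hπ using fun w : Place K => exists_above (k := k) w
  set t := t0 ∪ s.image π with ht
  have hall : ∀ v : Place k, {w : Place K | Above v w}.Finite ∧
      ∑ᶠ w ∈ {w : Place K | Above v w}, logPlus (nabs w (algebraMap k K x)) =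
        (Module.finrank k K : ℝ) * logPlus (nabs v x) := by
    intro v
    rcases v with v | v
    · exact ⟨(hI k K v).1, (hI k K v).2 x⟩
    · exact ⟨(hF k K v).1, (hF k K v).2 x⟩
  have h1 : logHeight₁ (algebraMap k K x) = ∑ w ∈ s, logPlus (nabs w (algebraMap k K x)) :=
    (sum_logPlus_nabs s hs1 _ hs2).symm
  have h2 : ∑ v ∈ t, logPlus (nabs v x) = logHeight₁ x := by
    apply sum_logPlus_nabs t
    · intro v
      rw [ht, Finset.mem_union]
      exact Or.inl (ht1 v)
    · intro w hw
      apply ht2
      intro h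
      apply hw
      rw [ht, Finset.mem_union]
      exact Or.inl h
  have hzero : ∀ w : Place K, w ∉ s → logPlus (nabs w (algebraMap k K x)) = 0 := by
    intro w hw
    rcases w with w | w
    · exact absurd (hs1 w) hw
    · have : nabs (Sum.inr w : Place K) (algebraMap k K x) = 1 := by
        simp only [nabs, Sum.elim_inr]
        exact hs2 w hw
      rw [this]
      simp [logPlus]
  rw [h1, ← h2, Finset.mul_sum]
  rw [← Finset.sum_fiberwise_of_maps_to (s := s) (t := t) (g := π)
    (fun w hw => by
      rw [ht, Finset.mem_union]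
      exact Or.inr (Finset.mem_image_of_mem π hw))]
  refine Finset.sum_congr rfl fun v _ => ?_
  rw [← (hall v).2]
  rw [finsum_mem_eq_sum_of_inter_support_eq (t := s.filter (fun w => π w = v))]
  ext w
  simp only [Set.mem_inter_iff, Set.mem_setOf_eq, Function.mem_support, Finset.coe_filter]
  constructor
  · rintro ⟨ha, hne⟩
    refine ⟨⟨?_, above_unique (hπ w) ha⟩, hne⟩
    by_contra hw
    exact hne (hzero w hw)
  · rintro ⟨⟨hw, rfl⟩, hne⟩
    exact ⟨hπ w, hne⟩

end Pool.Agent.Helper49.SE
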